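import Pool.Agent.V8H5.CD.Euc

set_option autoImplicit false

/-!
# The part of `C × C` on the unit circle has Hausdorff dimension at least `1 / 8`

`C` is the middle-third Cantor set (Mathlib's `cantorSet`).
-/

namespace Pool.Agent.Results.MP_54f706_an.PositiveDimension

/-- The set `E` of the points of the Euclidean plane with both coordinates in the middle-third
Cantor set and on the unit circle has Hausdorff dimension at least `1 / 8` and the cardinality of
the continuum. -/
theorem result :
    (1 : ENNReal) / 8 ≤ dimH {z : EuclideanSpace ℝ (Fin 2) |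
      z 0 ∈ cantorSet ∧ z 1 ∈ cantorSet ∧ z 0 ^ 2 + z 1 ^ 2 = 1} ∧
    Cardinal.mk {z : EuclideanSpace ℝ (Fin 2) |
      z 0 ∈ cantorSet ∧ z 1 ∈ cantorSet ∧ z 0 ^ 2 + z 1 ^ 2 = 1} = Cardinal.continuum :=
  Pool.Agent.V8H5.CD.main'

end Pool.Agent.Results.MP_54f706_an.PositiveDimension
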